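import Mathlib

/-!
A stable GKK tau-matrix of order 4 that violates the middle Newton inequality.
-/

namespace Pool.Agent.Results.MP_ba9f40_al.NewtonFails

open Matrix

/-- `A(α,β)`: the submatrix with rows `α` and columns `β`, where increasing index sequences of
length `k` in `{1,…,n}` are order embeddings `Fin k ↪o Fin n`. -/
def sub {n k : ℕ} (A : Matrix (Fin n) (Fin n) ℂ) (α β : Fin k ↪o Fin n) :
    Matrix (Fin k) (Fin k) ℂ :=
  A.submatrix α β

/-- The minor `A[α,β]`. -/
noncomputable def minor {n k : ℕ} (A : Matrix (Fin n) (Fin n) ℂ) (α β : Fin k ↪o Fin n) : ℂ :=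
  (sub A α β).det

/-- The set of indices occurring in an index sequence. -/
def idx {n k : ℕ} (α : Fin k ↪o Fin n) : Finset (Fin n) := Finset.univ.image α

/-- `A` is a P-matrix: every principal minor `A[α]`, `α` nonempty, is a positive real number. -/
def IsP {n : ℕ} (A : Matrix (Fin n) (Fin n) ℂ) : Prop :=
  ∀ (k : ℕ) (α : Fin k ↪o Fin n), 0 < k → (minor A α α).im = 0 ∧ 0 < (minor A α α).re

/-- `A` is weakly sign-symmetric: `A[α,β] A[β,α]` is a nonnegative real number for all minors of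
dispersal `|α| - |α ∩ β| = 1`. -/
def IsWSS {n : ℕ} (A : Matrix (Fin n) (Fin n) ℂ) : Prop :=
  ∀ (k : ℕ) (α β : Fin k ↪o Fin n), (idx α ∩ idx β).card + 1 = k →
    (minor A α β * minor A β α).im = 0 ∧ 0 ≤ (minor A α β * minor A β α).re

/-- GKK matrices: weakly sign-symmetric P-matrices. -/
def IsGKK {n : ℕ} (A : Matrix (Fin n) (Fin n) ℂ) : Prop := IsP A ∧ IsWSS A

/-- `l(B)`: the least real eigenvalue of `B`, and `∞` if `B` has no real eigenvalue. -/
noncomputable def l {k : ℕ} (B : Matrix (Fin k) (Fin k) ℂ) : EReal :=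
  sInf {x : EReal | ∃ r : ℝ, x = (r : EReal) ∧ (r : ℂ) ∈ spectrum ℂ B}

/-- `A` is an omega-matrix: `l(A(α)) ≤ l(A(β)) < ∞` whenever `∅ ≠ β ⊆ α`. -/
def IsOmega {n : ℕ} (A : Matrix (Fin n) (Fin n) ℂ) : Prop :=
  ∀ (k m : ℕ) (β : Fin k ↪o Fin n) (α : Fin m ↪o Fin n), 0 < k → idx β ⊆ idx α →
    l (sub A α α) ≤ l (sub A β β) ∧ l (sub A β β) < ⊤

/-- `A` is a tau-matrix: an omega-matrix with `l(A) ≥ 0`. -/
def IsTau {n : ℕ} (A : Matrix (Fin n) (Fin n) ℂ) : Prop := IsOmega A ∧ 0 ≤ l A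

/-- `A` is stable: every eigenvalue has positive real part. -/
def IsStable {n : ℕ} (A : Matrix (Fin n) (Fin n) ℂ) : Prop :=
  ∀ z ∈ spectrum ℂ A, 0 < z.re

/-- `c_j`: the normalised sum of the principal minors of order `j`. -/
noncomputable def c {n : ℕ} (A : Matrix (Fin n) (Fin n) ℂ) (j : ℕ) : ℂ :=
  (∑ s ∈ (Finset.univ : Finset (Fin n)).powersetCard j,
    minor A (s.orderEmbOfFin rfl) (s.orderEmbOfFin rfl)) / (n.choose j : ℂ)

/-- the integer matrix -/
def M : Matrix (Fin 4) (Fin 4) ℤ :=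
  !![100, 30, 30, 30; 30, 10, 9, 9; 30, 0, 10, 9; 30, 0, 0, 10]

/-- the witness -/
def A : Matrix (Fin 4) (Fin 4) ℂ := M.map (fun x : ℤ => (x : ℂ))

theorem minor_cast {k : ℕ} (α β : Fin k ↪o Fin 4) :
    minor A α β = (((M.submatrix α β).det : ℤ) : ℂ) := by
  have h : sub A α β = (Int.castRingHom ℂ).mapMatrix (M.submatrix α β) := by
    ext i j; simp [sub, A]
  rw [minor, h, ← RingHom.map_det]; simp

theorem k_le {k : ℕ} (α : Fin k ↪o Fin 4) : k ≤ 4 := by
  simpa using Fintype.card_le_of_injective α α.injective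

theorem idx_eq1 (α : Fin 1 ↪o Fin 4) : idx α = {α 0} := by
  ext x; simp [idx]

theorem idx_eq2 (α : Fin 2 ↪o Fin 4) : idx α = {α 0, α 1} := by
  ext x; simp [idx, Fin.exists_fin_two, eq_comm]

theorem idx_eq3 (α : Fin 3 ↪o Fin 4) : idx α = {α 0, α 1, α 2} := by
  ext x; simp [idx, Fin.exists_fin_succ, eq_comm]

theorem lt2 (α : Fin 2 ↪o Fin 4) : α 0 < α 1 := α.strictMono (by decide)
theorem lt3a (α : Fin 3 ↪o Fin 4) : α 0 < α 1 := α.strictMono (by decide)
theorem lt3b (α : Fin 3 ↪o Fin 4) : α 1 < α 2 := α.strictMono (by decide)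

theorem emb4 (α : Fin 4 ↪o Fin 4) : ∀ i, α i = i := by
  have h01 : α 0 < α 1 := α.strictMono (by decide)
  have h12 : α 1 < α 2 := α.strictMono (by decide)
  have h23 : α 2 < α 3 := α.strictMono (by decide)
  have hb := (α 3).isLt
  rw [Fin.lt_def] at h01 h12 h23
  intro i
  fin_cases i <;> (apply Fin.ext; simp; omega)

/-- the integer minors, as explicit formulas -/
def m2 (a b c d : Fin 4) : ℤ := M a c * M b d - M a d * M b c
def m3 (a b c d e f : Fin 4) : ℤ :=
  M a d * M b e * M c f - M a d * M b f * M c e - M a e * M b d * M c f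
    + M a e * M b f * M c d + M a f * M b d * M c e - M a f * M b e * M c d

theorem det1 (α β : Fin 1 ↪o Fin 4) : (M.submatrix α β).det = M (α 0) (β 0) := by
  simp
theorem det2 (α β : Fin 2 ↪o Fin 4) :
    (M.submatrix α β).det = m2 (α 0) (α 1) (β 0) (β 1) := by
  simp [Matrix.det_fin_two, m2]
theorem det3 (α β : Fin 3 ↪o Fin 4) :
    (M.submatrix α β).det = m3 (α 0) (α 1) (α 2) (β 0) (β 1) (β 2) := by
  simp [Matrix.det_fin_three, m3]
theorem det4 (α β : Fin 4 ↪o Fin 4) : (M.submatrix α β).det = 100 := by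
  have : M.submatrix α β = M := by ext i j; simp [emb4]
  rw [this]
  simp [M, Matrix.det_succ_row_zero, Fin.sum_univ_succ, Fin.succAbove]
  try decide

theorem isP_A : IsP A := by
  intro k α hk
  have hk4 := k_le α
  rw [minor_cast]
  have key : 0 < (M.submatrix α α).det := by
    interval_cases k
    · rw [det1]
      generalize α 0 = a; revert a; decide +kernel
    · rw [det2]
      have h := lt2 α
      generalize α 0 = a at *; generalize α 1 = b at *; revert a b; decide +kernel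
    · rw [det3]
      have h := lt3a α; have h' := lt3b α
      generalize α 0 = a at *; generalize α 1 = b at *; generalize α 2 = c at *
      revert a b c; decide +kernel
    · rw [det4]; norm_num
  constructor
  · simp
  · simpa using key

theorem isWSS_A : IsWSS A := by
  intro k α β hk
  have hk4 := k_le α
  rw [minor_cast, minor_cast]
  have key : 0 ≤ (M.submatrix α β).det * (M.submatrix β α).det := by
    interval_cases k
    · simp at hk
    · rw [det1, det1]
      generalize α 0 = a at *; generalize β 0 = b at *; revert a b; decide +kernel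
    · rw [idx_eq2, idx_eq2] at hk
      rw [det2, det2]
      have h := lt2 α; have h' := lt2 β
      generalize α 0 = a at *; generalize α 1 = b at *
      generalize β 0 = c at *; generalize β 1 = d at *
      revert a b c d; decide +kernel
    · rw [idx_eq3, idx_eq3] at hk
      rw [det3, det3]
      have h1 := lt3a α; have h2 := lt3b α; have h3 := lt3a β; have h4 := lt3b β
      generalize α 0 = a at *; generalize α 1 = b at *; generalize α 2 = c at *
      generalize β 0 = d at *; generalize β 1 = e at *; generalize β 2 = f at *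
      revert a b c d e f; decide +kernel
    · rw [det4, det4]; norm_num
  rw [← Int.cast_mul]
  constructor
  · simp
  · rw [Complex.intCast_re]; exact_mod_cast key

theorem mem_spec {k : ℕ} (B : Matrix (Fin k) (Fin k) ℂ) (z : ℂ) :
    z ∈ spectrum ℂ B ↔ (algebraMap ℂ (Matrix (Fin k) (Fin k) ℂ) z - B).det = 0 := by
  rw [spectrum.mem_iff, Matrix.isUnit_iff_isUnit_det, isUnit_iff_ne_zero, not_not]

theorem tab2 : ∀ a b : Fin 4, a < b →
    (a = 0 → M a a = 100 ∧ M b b = 10 ∧ M a b * M b a = 900) ∧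
    (a ≠ 0 → M a a = 10 ∧ M b b = 10 ∧ M a b * M b a = 0) := by decide +kernel

theorem tab3 : ∀ a b c : Fin 4, a < b → b < c →
    (a = 0 → M a a + M b b + M c c = 120 ∧
      (M a a * M b b - M a b * M b a) + (M a a * M c c - M a c * M c a)
        + (M b b * M c c - M b c * M c b) = 300 ∧ m3 a b c a b c = 100) ∧
    (a ≠ 0 → M a a + M b b + M c c = 30 ∧
      (M a a * M b b - M a b * M b a) + (M a a * M c c - M a c * M c a)
        + (M b b * M c c - M b c * M c b) = 300 ∧ m3 a b c a b c = 1000) := by decide +kernel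

theorem spec1 (α : Fin 1 ↪o Fin 4) (z : ℂ) :
    z ∈ spectrum ℂ (sub A α α) ↔ z = (M (α 0) (α 0) : ℂ) := by
  rw [mem_spec]
  simp [sub, A, Matrix.algebraMap_eq_diagonal, sub_eq_zero]

theorem spec2 (α : Fin 2 ↪o Fin 4) (z : ℂ) :
    z ∈ spectrum ℂ (sub A α α) ↔
      if α 0 = 0 then z ^ 2 - 110 * z + 100 = 0 else z = 10 := by
  rw [mem_spec]
  have h := tab2 (α 0) (α 1) (lt2 α)
  have hd : (algebraMap ℂ (Matrix (Fin 2) (Fin 2) ℂ) z - sub A α α).det
      = (z - (M (α 0) (α 0) : ℂ)) * (z - (M (α 1) (α 1) : ℂ))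
        - ((M (α 0) (α 1) * M (α 1) (α 0) : ℤ) : ℂ) := by
    simp [Matrix.det_fin_two, sub, A, Matrix.algebraMap_eq_diagonal]
  rw [hd]
  split_ifs with h0
  · obtain ⟨h1, h2, h3⟩ := h.1 h0
    rw [h1, h2, h3]; push_cast
    constructor <;> intro h <;> linear_combination h
  · obtain ⟨h1, h2, h3⟩ := h.2 h0
    rw [h1, h2, h3]; push_cast
    constructor
    · intro h
      have : (z - 10) ^ 2 = 0 := by linear_combination h
      exact sub_eq_zero.mp (pow_eq_zero_iff (two_ne_zero) |>.mp this)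
    · intro h; rw [h]; norm_num

theorem spec3 (α : Fin 3 ↪o Fin 4) (z : ℂ) :
    z ∈ spectrum ℂ (sub A α α) ↔
      if α 0 = 0 then z ^ 3 - 120 * z ^ 2 + 300 * z - 100 = 0 else z = 10 := by
  rw [mem_spec]
  have h := tab3 (α 0) (α 1) (α 2) (lt3a α) (lt3b α)
  have hd : (algebraMap ℂ (Matrix (Fin 3) (Fin 3) ℂ) z - sub A α α).det
      = z ^ 3 - ((M (α 0) (α 0) + M (α 1) (α 1) + M (α 2) (α 2) : ℤ) : ℂ) * z ^ 2
        + (((M (α 0) (α 0) * M (α 1) (α 1) - M (α 0) (α 1) * M (α 1) (α 0))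
          + (M (α 0) (α 0) * M (α 2) (α 2) - M (α 0) (α 2) * M (α 2) (α 0))
          + (M (α 1) (α 1) * M (α 2) (α 2) - M (α 1) (α 2) * M (α 2) (α 1)) : ℤ) : ℂ) * z
        - ((m3 (α 0) (α 1) (α 2) (α 0) (α 1) (α 2) : ℤ) : ℂ) := by
    simp [Matrix.det_fin_three, sub, A, Matrix.algebraMap_eq_diagonal, m3]
    ring
  rw [hd]
  split_ifs with h0
  · obtain ⟨h1, h2, h3⟩ := h.1 h0
    rw [h1, h2, h3]; push_cast
    constructor <;> intro h <;> linear_combination h
  · obtain ⟨h1, h2, h3⟩ := h.2 h0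
    rw [h1, h2, h3]; push_cast
    constructor
    · intro h
      have : (z - 10) ^ 3 = 0 := by linear_combination h
      exact sub_eq_zero.mp (pow_eq_zero_iff (three_ne_zero) |>.mp this)
    · intro h; rw [h]; norm_num

theorem spec4 (z : ℂ) :
    z ∈ spectrum ℂ A ↔ z ^ 4 - 130 * z ^ 3 + 600 * z ^ 2 - 1300 * z + 100 = 0 := by
  rw [mem_spec]
  have hd : (algebraMap ℂ (Matrix (Fin 4) (Fin 4) ℂ) z - A).det
      = z ^ 4 - 130 * z ^ 3 + 600 * z ^ 2 - 1300 * z + 100 := by
    simp [Matrix.det_succ_row_zero, Fin.sum_univ_succ, Fin.succAbove, A, M,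
      Matrix.algebraMap_eq_diagonal]
    ring
  rw [hd]

theorem sub4 (α : Fin 4 ↪o Fin 4) : sub A α α = A := by
  ext i j; simp [sub, emb4]

theorem l_le {k : ℕ} {B : Matrix (Fin k) (Fin k) ℂ} {r t : ℝ} (h : (r : ℂ) ∈ spectrum ℂ B)
    (hr : r ≤ t) : l B ≤ (t : EReal) :=
  le_trans (sInf_le (show (r : EReal) ∈ {x : EReal | ∃ r : ℝ, x = (r : EReal) ∧
    (r : ℂ) ∈ spectrum ℂ B} from ⟨r, rfl, h⟩)) (EReal.coe_le_coe_iff.mpr hr)

theorem le_l {k : ℕ} {B : Matrix (Fin k) (Fin k) ℂ} {t : ℝ}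
    (h : ∀ r : ℝ, (r : ℂ) ∈ spectrum ℂ B → t ≤ r) : (t : EReal) ≤ l B := by
  refine le_sInf ?_
  rintro x ⟨r, rfl, hr⟩
  exact EReal.coe_le_coe_iff.mpr (h r hr)

/-- existence of a real root by the intermediate value theorem -/
theorem ivt (f : ℝ → ℝ) (hf : Continuous f) (a b : ℝ) (hab : a ≤ b)
    (h : f a * f b ≤ 0) : ∃ x, a ≤ x ∧ x ≤ b ∧ f x = 0 := by
  rcases le_or_gt (f a) 0 with h1 | h1
  · rcases le_or_gt 0 (f b) with h2 | h2
    · obtain ⟨x, hx, hx2⟩ := intermediate_value_Icc hab hf.continuousOn ⟨h1, h2⟩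
      exact ⟨x, hx.1, hx.2, hx2⟩
    · have : f a = 0 := by nlinarith
      exact ⟨a, le_refl _, hab, this⟩
  · rcases le_or_gt (f b) 0 with h2 | h2
    · obtain ⟨x, hx, hx2⟩ := intermediate_value_Icc' hab hf.continuousOn ⟨h2, h1.le⟩
      exact ⟨x, hx.1, hx.2, hx2⟩
    · have : f a * f b > 0 := mul_pos h1 h2
      linarith

/-- thresholds: for a principal submatrix of order `m` containing the first index -/
noncomputable def t : ℕ → ℝ
  | 0 => 100
  | 1 => 100
  | 2 => 1
  | 3 => 1 / 2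
  | _ => 1 / 10

/-- a principal submatrix of order `m` containing the first index has a real eigenvalue
which is at most `t m` -/
theorem upper {m : ℕ} (hm : 0 < m) (α : Fin m ↪o Fin 4) (h0 : α ⟨0, hm⟩ = 0) :
    ∃ r : ℝ, r ≤ t m ∧ (r : ℂ) ∈ spectrum ℂ (sub A α α) := by
  have hm4 := k_le α
  interval_cases m
  · refine ⟨100, by norm_num [t], ?_⟩
    rw [spec1]
    have h0' : α 0 = 0 := h0
    rw [h0']; norm_num [M]
  · obtain ⟨x, hx1, hx2, hx⟩ := ivt (fun x => x ^ 2 - 110 * x + 100) (by fun_prop) 0 1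
      (by norm_num) (by norm_num)
    refine ⟨x, by simpa [t] using hx2, ?_⟩
    rw [spec2, if_pos (show α 0 = 0 from h0)]
    exact_mod_cast congrArg (fun y : ℝ => (y : ℂ)) hx
  · obtain ⟨x, hx1, hx2, hx⟩ := ivt (fun x => x ^ 3 - 120 * x ^ 2 + 300 * x - 100)
      (by fun_prop) 0 (1 / 2) (by norm_num) (by norm_num)
    refine ⟨x, by simpa [t] using hx2, ?_⟩
    rw [spec3, if_pos (show α 0 = 0 from h0)]
    exact_mod_cast congrArg (fun y : ℝ => (y : ℂ)) hx
  · obtain ⟨x, hx1, hx2, hx⟩ := ivt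
      (fun x => x ^ 4 - 130 * x ^ 3 + 600 * x ^ 2 - 1300 * x + 100)
      (by fun_prop) 0 (1 / 10) (by norm_num) (by norm_num)
    refine ⟨x, by simpa [t] using hx2, ?_⟩
    rw [sub4, spec4]
    exact_mod_cast congrArg (fun y : ℝ => (y : ℂ)) hx

/-- a principal submatrix not containing the first index has spectrum `{10}` -/
theorem spec_not {m : ℕ} (hm : 0 < m) (α : Fin m ↪o Fin 4) (h0 : α ⟨0, hm⟩ ≠ 0) (z : ℂ) :
    z ∈ spectrum ℂ (sub A α α) ↔ z = 10 := by
  have hm4 := k_le α
  interval_cases m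
  · rw [spec1]
    have h0' : α 0 ≠ 0 := h0
    have : ∀ a : Fin 4, a ≠ 0 → M a a = 10 := by decide +kernel
    rw [this _ h0']; norm_num
  · rw [spec2, if_neg (show ¬ α 0 = 0 from h0)]
  · rw [spec3, if_neg (show ¬ α 0 = 0 from h0)]
  · exact absurd (emb4 α 0) h0

/-- every real eigenvalue of a principal submatrix of order `k` is at least `t m` if `k < m ≤ 4` -/
theorem lower {k : ℕ} (hk : 0 < k) (β : Fin k ↪o Fin 4) (m : ℕ) (hkm : k < m) (hm : m ≤ 4)
    (r : ℝ) (hr : (r : ℂ) ∈ spectrum ℂ (sub A β β)) : t m ≤ r := by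
  have ht : t m ≤ 1 := by
    have : 2 ≤ m := by omega
    interval_cases m <;> norm_num [t]
  by_cases h0 : β ⟨0, hk⟩ = 0
  · have hk4 : k < 4 := by omega
    interval_cases k
    · rw [spec1] at hr
      have h0' : β 0 = 0 := h0
      rw [h0'] at hr
      have : r = 100 := by
        have h1 : (r : ℂ) = ((100 : ℝ) : ℂ) := by rw [hr]; norm_num [M]
        exact_mod_cast h1
      rw [this]; linarith
    · rw [spec2, if_pos (show β 0 = 0 from h0)] at hr
      have hr' : r ^ 2 - 110 * r + 100 = 0 := by exact_mod_cast hr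
      have ht2 : t m ≤ 1 / 2 := by
        have : 3 ≤ m := by omega
        interval_cases m <;> norm_num [t]
      by_contra hc
      push Not at hc
      nlinarith [sq_nonneg r]
    · rw [spec3, if_pos (show β 0 = 0 from h0)] at hr
      have hr' : r ^ 3 - 120 * r ^ 2 + 300 * r - 100 = 0 := by exact_mod_cast hr
      have hm' : m = 4 := by omega
      subst hm'
      have ht3 : t 4 = 1 / 10 := by norm_num [t]
      rw [ht3]
      by_contra hc
      push Not at hc
      rcases le_or_gt r 0 with h | h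
      · nlinarith [mul_nonneg (mul_nonneg (neg_nonneg.mpr h) (neg_nonneg.mpr h))
          (neg_nonneg.mpr h), sq_nonneg r]
      · nlinarith [mul_pos h h, mul_pos (mul_pos h h) h]
  · rw [spec_not hk β h0] at hr
    have : r = 10 := by exact_mod_cast hr
    rw [this]; linarith

theorem mem_idx_zero {m : ℕ} (hm : 0 < m) (α : Fin m ↪o Fin 4) :
    (0 : Fin 4) ∈ idx α ↔ α ⟨0, hm⟩ = 0 := by
  simp only [idx, Finset.mem_image, Finset.mem_univ, true_and]
  constructor
  · rintro ⟨i, hi⟩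
    have h1 : α ⟨0, hm⟩ ≤ α i := α.monotone (by
      rw [Fin.le_def]; exact Nat.zero_le _)
    rw [hi] at h1
    exact le_antisymm h1 (Fin.zero_le _)
  · intro h; exact ⟨_, h⟩

theorem card_idx {m : ℕ} (α : Fin m ↪o Fin 4) : (idx α).card = m := by
  rw [idx, Finset.card_image_of_injective _ α.injective]; simp

theorem isOmega_A : IsOmega A := by
  intro k m β α hk hsub
  have hkm : k ≤ m := by
    have := Finset.card_le_card hsub
    rwa [card_idx, card_idx] at this
  have hm : 0 < m := by omega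
  have hm4 := k_le α
  have hfin : l (sub A β β) < ⊤ := by
    by_cases h0 : β ⟨0, hk⟩ = 0
    · obtain ⟨r, hr, hr2⟩ := upper hk β h0
      exact (l_le hr2 le_rfl).trans_lt (EReal.coe_lt_top r)
    · have h10 : ((10 : ℝ) : ℂ) ∈ spectrum ℂ (sub A β β) := by
        rw [spec_not hk β h0]; norm_num
      exact (l_le h10 le_rfl).trans_lt (EReal.coe_lt_top 10)
  refine ⟨?_, hfin⟩
  rcases Nat.lt_or_ge k m with hlt | hge
  · by_cases h0 : α ⟨0, hm⟩ = 0
    · obtain ⟨r, hr, hr2⟩ := upper hm α h0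
      exact (l_le hr2 hr).trans (le_l (fun s hs => lower hk β m hlt hm4 s hs))
    · have h0' : β ⟨0, hk⟩ ≠ 0 := by
        intro hb
        exact h0 ((mem_idx_zero hm α).mp (hsub ((mem_idx_zero hk β).mpr hb)))
      have h10 : ((10 : ℝ) : ℂ) ∈ spectrum ℂ (sub A α α) := by
        rw [spec_not hm α h0]; norm_num
      refine (l_le h10 le_rfl).trans (le_l (fun s hs => ?_))
      rw [spec_not hk β h0'] at hs
      have : s = 10 := by exact_mod_cast hs
      exact this.ge
  · have hkm' : k = m := le_antisymm hkm hge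
    subst hkm'
    have heq : idx β = idx α :=
      Finset.eq_of_subset_of_card_le hsub (by rw [card_idx, card_idx])
    have hr : Set.range β = Set.range α := by
      have h1 := congrArg (fun s : Finset (Fin 4) => (s : Set (Fin 4))) heq
      simpa [idx] using h1
    have hab : (β : Fin k → Fin 4) = α := (β.strictMono.range_inj α.strictMono).mp hr
    have : sub A β β = sub A α α := by
      unfold sub; rw [hab]
    rw [this]

theorem isTau_A : IsTau A := by
  refine ⟨isOmega_A, ?_⟩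
  have : ((0 : ℝ) : EReal) ≤ l A := by
    refine le_l (fun r hr => ?_)
    rw [spec4] at hr
    have hr' : r ^ 4 - 130 * r ^ 3 + 600 * r ^ 2 - 1300 * r + 100 = 0 := by exact_mod_cast hr
    by_contra hc
    push Not at hc
    have h1 : 0 < -r := by linarith
    nlinarith [mul_pos h1 h1, mul_pos (mul_pos h1 h1) h1, mul_pos (mul_pos h1 h1) (mul_pos h1 h1)]
  simpa using this

theorem isStable_A : IsStable A := by
  intro z hz
  rw [spec4] at hz
  by_contra hc
  push Not at hc
  obtain ⟨x, y⟩ := z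
  simp only at hc
  have hre := congrArg Complex.re hz
  have him := congrArg Complex.im hz
  simp [pow_succ, Complex.mul_re, Complex.mul_im] at hre him
  have h0 : 0 ≤ -x := by linarith
  set w := -x with hw
  have hx : x = -w := by rw [hw]; ring
  rw [hx] at hre him
  by_cases hy : y = 0
  · subst hy
    have : w ^ 4 + 130 * w ^ 3 + 600 * w ^ 2 + 1300 * w + 100 = 0 := by
      ring_nf at hre ⊢; linarith
    have : 0 < w ^ 4 + 130 * w ^ 3 + 600 * w ^ 2 + 1300 * w + 100 := by positivity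
    linarith
  · have h1 : y ^ 2 * (4 * w + 130) = 4 * w ^ 3 + 390 * w ^ 2 + 1200 * w + 1300 := by
      have : y * (y ^ 2 * (4 * w + 130) - (4 * w ^ 3 + 390 * w ^ 2 + 1200 * w + 1300)) = 0 := by
        ring_nf at him ⊢; linarith
      rcases mul_eq_zero.mp this with h | h
      · exact absurd h hy
      · linarith
    have h2 : (y ^ 2) ^ 2 - y ^ 2 * (6 * w ^ 2 + 390 * w + 600)
        + (w ^ 4 + 130 * w ^ 3 + 600 * w ^ 2 + 1300 * w + 100) = 0 := by
      ring_nf at hre ⊢; linarith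
    have h3 : (4 * w ^ 3 + 390 * w ^ 2 + 1200 * w + 1300) ^ 2
        - (4 * w ^ 3 + 390 * w ^ 2 + 1200 * w + 1300) * (6 * w ^ 2 + 390 * w + 600)
          * (4 * w + 130)
        + (w ^ 4 + 130 * w ^ 3 + 600 * w ^ 2 + 1300 * w + 100) * (4 * w + 130) ^ 2 = 0 := by
      rw [← h1]
      have : ((y ^ 2) ^ 2 - y ^ 2 * (6 * w ^ 2 + 390 * w + 600)
        + (w ^ 4 + 130 * w ^ 3 + 600 * w ^ 2 + 1300 * w + 100)) * (4 * w + 130) ^ 2 = 0 := by
        rw [h2]; ring
      linarith
    have h4 : 0 < -((4 * w ^ 3 + 390 * w ^ 2 + 1200 * w + 1300) ^ 2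
        - (4 * w ^ 3 + 390 * w ^ 2 + 1200 * w + 1300) * (6 * w ^ 2 + 390 * w + 600)
          * (4 * w + 130)
        + (w ^ 4 + 130 * w ^ 3 + 600 * w ^ 2 + 1300 * w + 100) * (4 * w + 130) ^ 2) := by
      ring_nf
      positivity
    linarith

theorem minor_card {k : ℕ} (s : Finset (Fin 4)) (h : s.card = k) :
    minor A (s.orderEmbOfFin rfl) (s.orderEmbOfFin rfl)
      = minor A (s.orderEmbOfFin h) (s.orderEmbOfFin h) := by
  subst h; rfl

theorem idx_orderEmb {k : ℕ} (s : Finset (Fin 4)) (h : s.card = k) :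
    idx (s.orderEmbOfFin h) = s := Finset.image_orderEmbOfFin_univ s h

theorem sum1 : ∑ s ∈ (Finset.univ : Finset (Fin 4)).powersetCard 1,
    minor A (s.orderEmbOfFin rfl) (s.orderEmbOfFin rfl) = 130 := by
  have h : ∀ s ∈ (Finset.univ : Finset (Fin 4)).powersetCard 1,
      minor A (s.orderEmbOfFin rfl) (s.orderEmbOfFin rfl)
        = (((if (0 : Fin 4) ∈ s then 100 else 10 : ℤ)) : ℂ) := by
    intro s hs
    have hc := (Finset.mem_powersetCard.mp hs).2
    rw [minor_card s hc, minor_cast, det1]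
    have h0 := mem_idx_zero (by norm_num) (s.orderEmbOfFin hc)
    rw [idx_orderEmb] at h0
    congr 1
    have key : ∀ a : Fin 4, M a a = if a = 0 then 100 else 10 := by decide +kernel
    rw [key]
    simp only [h0]
    rfl
  rw [Finset.sum_congr rfl h, ← Int.cast_sum]
  have : ∑ s ∈ (Finset.univ : Finset (Fin 4)).powersetCard 1,
      (if (0 : Fin 4) ∈ s then 100 else 10 : ℤ) = 130 := by decide +kernel
  rw [this]; norm_num

theorem sum2 : ∑ s ∈ (Finset.univ : Finset (Fin 4)).powersetCard 2,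
    minor A (s.orderEmbOfFin rfl) (s.orderEmbOfFin rfl) = 600 := by
  have h : ∀ s ∈ (Finset.univ : Finset (Fin 4)).powersetCard 2,
      minor A (s.orderEmbOfFin rfl) (s.orderEmbOfFin rfl) = 100 := by
    intro s hs
    have hc := (Finset.mem_powersetCard.mp hs).2
    rw [minor_card s hc, minor_cast, det2]
    have key : ∀ a b : Fin 4, a < b → m2 a b a b = 100 := by decide +kernel
    rw [key _ _ (lt2 _)]; norm_num
  rw [Finset.sum_congr rfl h]
  simp [Finset.card_powersetCard]
  norm_num [Nat.choose]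

theorem sum3 : ∑ s ∈ (Finset.univ : Finset (Fin 4)).powersetCard 3,
    minor A (s.orderEmbOfFin rfl) (s.orderEmbOfFin rfl) = 1300 := by
  have h : ∀ s ∈ (Finset.univ : Finset (Fin 4)).powersetCard 3,
      minor A (s.orderEmbOfFin rfl) (s.orderEmbOfFin rfl)
        = (((if (0 : Fin 4) ∈ s then 100 else 1000 : ℤ)) : ℂ) := by
    intro s hs
    have hc := (Finset.mem_powersetCard.mp hs).2
    rw [minor_card s hc, minor_cast, det3]
    have h0 := mem_idx_zero (by norm_num) (s.orderEmbOfFin hc)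
    rw [idx_orderEmb] at h0
    congr 1
    have key : ∀ a b c : Fin 4, a < b → b < c → m3 a b c a b c = if a = 0 then 100 else 1000 := by
      decide +kernel
    rw [key _ _ _ (lt3a _) (lt3b _)]
    simp only [h0]
    rfl
  rw [Finset.sum_congr rfl h, ← Int.cast_sum]
  have : ∑ s ∈ (Finset.univ : Finset (Fin 4)).powersetCard 3,
      (if (0 : Fin 4) ∈ s then 100 else 1000 : ℤ) = 1300 := by decide +kernel
  rw [this]; norm_num

theorem c1 : c A 1 = ((65 / 2 : ℝ) : ℂ) := by
  rw [c, sum1]; norm_num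

theorem c2 : c A 2 = ((100 : ℝ) : ℂ) := by
  rw [c, sum2]; norm_num [Nat.choose]

theorem c3 : c A 3 = ((325 : ℝ) : ℂ) := by
  rw [c, sum3]; norm_num [Nat.choose]

/-- There is a stable GKK tau-matrix of order 4, with real entries, for which the Newton
inequality `c_2 ^ 2 ≥ c_1 c_3` fails. -/
theorem result : ∃ A : Matrix (Fin 4) (Fin 4) ℂ,
    (∀ i j, (A i j).im = 0) ∧ IsGKK A ∧ IsTau A ∧ IsStable A ∧
    (c A 1).im = 0 ∧ (c A 2).im = 0 ∧ (c A 3).im = 0 ∧
    (c A 2).re ^ 2 < (c A 1).re * (c A 3).re := by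
  refine ⟨A, fun i j => by simp [A], ⟨isP_A, isWSS_A⟩, isTau_A, isStable_A, ?_, ?_, ?_, ?_⟩
  · rw [c1, Complex.ofReal_im]
  · rw [c2, Complex.ofReal_im]
  · rw [c3, Complex.ofReal_im]
  · rw [c1, c2, c3, Complex.ofReal_re, Complex.ofReal_re, Complex.ofReal_re]; norm_num

end Pool.Agent.Results.MP_ba9f40_al.NewtonFails
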